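import Pool.Agent.N64.AF.L1

/-!
# Rational and numerical equivalence on all powers of a variety over a finite field

Let `X` be ANY smooth projective scheme over a finite field, `ρ (n)` the rank of the group of all
cycles on `X ^ n` modulo numerical equivalence, and `d (n)` the dimension of `CH^*(X ^ n)_ℚ` (the
direct sum over all codimensions), a number or infinity. The conjecture of the question predicts
`d (n) = ρ (n)`.

Theorem. The quotient `d (n) / ρ (n)` converges, for `n → ∞`, to a NATURAL NUMBER `N ≥ 1` or to
infinity. `N = 1` if and only if rational and numerical equivalence coincide (up to torsion) on all
powers of `X`, that is, if all pairings of the question are perfect for all `X ^ n`. If `N` is finite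
then

* the Chow groups `CH^*(X ^ n)_ℚ` are finite-dimensional for all `n`;
* each composition of `N` numerically trivial correspondences between powers of `X` is zero up to
  torsion. In particular all products `α_1 × ⋯ × α_N` of `N` numerically trivial cycles on powers of
  `X` are zero, and so is the `N`-th power `y ^ N` of each numerically trivial self-correspondence
  of each power `X ^ n`;
* the Chow motive of `X` is finite-dimensional in the sense of Kimura.

So the conjecture for the powers of `X` is a question about the size of Chow groups only: it holds if
`dim CH^*(X ^ n)_ℚ ≤ c ρ (n)` for infinitely many `n` and a constant `c < 2`. And if the Chow groups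
of infinitely many powers are at most `c` times larger than the numerical ones, for any constant `c`,
then the motive is finite-dimensional and the numerically trivial correspondences form a nilpotent
ideal, of exponent at most `c`. No conjecture is assumed. (If the Tate conjecture is known for the
powers of `X`, Kimura finite-dimensionality implies `N = 1` by the theorem of Kahn, so that then
`N` is `1` or infinity.)

The setting. `C` is the pseudo-abelian hull of the category of the smooth projective schemes over
the finite field with the groups `CH^*(X × Y)_ℚ` (all codimensions) as morphisms; it is a rigid
symmetric monoidal category in which all `h(X)` are self-dual, `T = h(X)`, `tp T n = h(X ^ n)`, and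
`𝟙_ C ⟶ tp T n` is `CH^*(X ^ n)_ℚ`. `R` is the `ℓ`-adic cohomology with coefficients extended to
an algebraic closure `K` of `ℚ_ℓ`. The sign conjecture `C⁺` is known for all `X` by Katz and Messing.

Idea of the proof. The law of the ratios for all additive functors (files AF/J and AF/S) gives the
limit and shows that compositions of `N` numerically trivial correspondences act as zero on
`CH^*`; by duality they vanish. Here the finiteness of `N` first gives nilpotence: a numerically
trivial correspondence which acts on `CH^*(X ^ m)` in a non-nilpotent way fixes (after a change) a
vector `z ≠ 0`, and the insertions of `z` in the `a + 1` factors of `(X ^ m) ^ (a + 1)` are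
independent modulo the other factors, so that the ratio is at least `(a + 1)` times a constant. Then
the constituents of `CH^*` are simple numerical motives, each contributing its total Betti number
to the limit. Finally `C⁺` and nilpotence split `h(X)` into an even and an odd part, whose exterior and
symmetric powers of large degree are homologically trivial and idempotent, hence zero.

Authors: helper64 (plan, law and structure theorem), helper645 (nilpotence of the numerical ideal),
helper861 (Kimura finite-dimensionality), and, for the lemmas of the law, helper136, helper327,
helper199, helper767, helper8, helper364, helper216, helper73, helper833, helper140, helper494,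
helper505, helper301, helper441, helper591, helper712.
-/

set_option autoImplicit false

open CategoryTheory MonoidalCategory Module Filter Topology
open Pool.Agent.Y112.SR Pool.Agent.Y112.KD Pool.Agent.N64.AF
open scoped ENNReal

namespace Pool.Agent.Results.MP_4960c7_ag.ProductsVanish

universe v u w

/-- The size of the Chow groups of the powers of `X`, and the nilpotence of the numerically trivial
correspondences. -/
theorem result {C : Type u} [Category.{v} C] [Preadditive C] [MonoidalCategory C]
    [MonoidalPreadditive C] [SymmetricCategory C] [RightRigidCategory C]
    [Linear ℚ C] [MonoidalLinear ℚ C] [IsIdempotentComplete C]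
    {K : Type w} [Field K] [IsAlgClosed K] [Algebra ℚ K] (R : SuperRealisation C K)
    (T : C) [ExactPairing T T] (h : IsPow ℚ R T) :
    ∃ N : ℕ∞, N ≠ 0 ∧
      Tendsto (fun n => ((dimE ℚ (𝟙_ C ⟶ tp T n) : ℕ∞) : ℝ≥0∞) / numRank ℚ (tp T n)) atTop
        (𝓝 (N : ℝ≥0∞)) ∧
      (N = 1 ↔ ∀ (a b : ℕ) (f : tp T a ⟶ tp T b), NumTriv f → f = 0) ∧
      ∀ k : ℕ, N = k → (∀ a b : ℕ, Module.Finite ℚ (tp T a ⟶ tp T b)) ∧
        (∀ (a b : ℕ) (f : tp T a ⟶ tp T b), NumPow T k f → f = 0) ∧
        Pool.Agent.R905.IsKimuraFinite T :=
  chow_law h

end Pool.Agent.Results.MP_4960c7_ag.ProductsVanish
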